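import Pool.Agent.N708.MX.Stm
import Pool.Agent.W681.RC.PTB
import Pool.Agent.W440.RC.PTA
import Pool.Agent.W103.RC.PTC

/-! MX-GAP: spectral gap of operator norm almost representations of a Kazhdan group. -/

set_option autoImplicit false

namespace Pool.Agent.N291.MX.GAP

open Pool.Agent.W661.RC Pool.Agent.W681.RC

section one

variable {k : ℕ} {H : Type} [NormedAddCommGroup H] [InnerProductSpace ℂ H] [CompleteSpace H]

/-- the energy -/
noncomputable def En (ρ : FreeGroup (Fin k) →* unitary (H →L[ℂ] H)) (x : H) : ℝ :=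
  ∑ s, ‖(ρ (FreeGroup.of s) : H →L[ℂ] H) x - x‖ ^ 2

theorem En_eq (ρ : FreeGroup (Fin k) →* unitary (H →L[ℂ] H)) (x : H) :
    En ρ x = 2 * (2 * k + 1) * (inner ℂ x (x - Mk ρ x)).re := by
  have hk : (0 : ℝ) < 2 * k + 1 := by positivity
  have h1 := inner_AA ρ x
  have h2 : x - AA ρ x = (2 : ℂ) • (x - Mk ρ x) := by
    rw [Mk_apply]
    module
  rw [h2, inner_smul_right] at h1
  have h3 : ((2 : ℂ) * inner ℂ x (x - Mk ρ x)).re = 2 * (inner ℂ x (x - Mk ρ x)).re := by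
    simp
  rw [h3] at h1
  unfold En
  field_simp at h1
  linarith

theorem En_smul (ρ : FreeGroup (Fin k) →* unitary (H →L[ℂ] H)) (c : ℂ) (x : H) :
    En ρ (c • x) = ‖c‖ ^ 2 * En ρ x := by
  unfold En
  rw [Finset.mul_sum]
  refine Finset.sum_congr rfl fun s _ => ?_
  rw [map_smul, ← smul_sub, norm_smul, mul_pow]

theorem En_le (ρ : FreeGroup (Fin k) →* unitary (H →L[ℂ] H)) (x : H) :
    En ρ x ≤ 4 * k * ‖x‖ ^ 2 := by
  unfold En
  have h : ∀ s ∈ (Finset.univ : Finset (Fin k)),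
      ‖(ρ (FreeGroup.of s) : H →L[ℂ] H) x - x‖ ^ 2 ≤ 4 * ‖x‖ ^ 2 := by
    intro s _
    have h1 := norm_sub_le ((ρ (FreeGroup.of s) : H →L[ℂ] H) x) x
    rw [norm_ap] at h1
    nlinarith [norm_nonneg ((ρ (FreeGroup.of s) : H →L[ℂ] H) x - x), norm_nonneg x]
  refine (Finset.sum_le_sum h).trans ?_
  rw [Finset.sum_const, Finset.card_univ, Fintype.card_fin, nsmul_eq_mul]
  linarith

theorem En_nonneg (ρ : FreeGroup (Fin k) →* unitary (H →L[ℂ] H)) (x : H) : 0 ≤ En ρ x :=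
  Finset.sum_nonneg fun _ _ => by positivity

theorem Mk_symm (ρ : FreeGroup (Fin k) →* unitary (H →L[ℂ] H)) (x y : H) :
    inner ℂ (Mk ρ x) y = inner ℂ x (Mk ρ y) := by
  have hA : inner ℂ (AA ρ x) y = inner ℂ x (AA ρ y) := by
    unfold AA
    rw [inner_smul_left, inner_smul_right, inner_add_left, inner_add_right, sum_inner, inner_sum]
    have e1 : (starRingEnd ℂ) (1 / (2 * k + 1) : ℂ) = (1 / (2 * k + 1) : ℂ) := by
      have : (1 / (2 * k + 1) : ℂ) = ((1 / (2 * k + 1) : ℝ) : ℂ) := by push_cast; rfl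
      rw [this, Complex.conj_ofReal]
    rw [e1]
    congr 2
    refine Finset.sum_congr rfl fun s _ => ?_
    rw [inner_add_left, inner_add_right]
    have a1 := inner_inv ρ (FreeGroup.of s) x y
    have a2 := inner_inv ρ (FreeGroup.of s)⁻¹ x y
    rw [inv_inv] at a2
    rw [a1, a2, add_comm]
  have e2 : (starRingEnd ℂ) (1 / 2 : ℂ) = (1 / 2 : ℂ) := by
    have : (1 / 2 : ℂ) = ((1 / 2 : ℝ) : ℂ) := by push_cast; rfl
    rw [this, Complex.conj_ofReal]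
  rw [Mk_apply, Mk_apply, inner_smul_left, inner_smul_right, inner_add_left, inner_add_right, hA, e2]

theorem Mk_pow_eig (ρ : FreeGroup (Fin k) →* unitary (H →L[ℂ] H)) (x : H) (lam : ℝ)
    (hx : Mk ρ x = (lam : ℂ) • x) (n : ℕ) : (Mk ρ ^ n) x = ((lam ^ n : ℝ) : ℂ) • x := by
  induction n with
  | zero => simp
  | succ n ih =>
    rw [pow_succ', ContinuousLinearMap.mul_apply, ih, map_smul, hx, smul_smul]
    congr 1
    push_cast
    ring

/-- energy of an eigenvector -/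
theorem En_eig (ρ : FreeGroup (Fin k) →* unitary (H →L[ℂ] H)) (x : H) (lam : ℝ)
    (hx : Mk ρ x = (lam : ℂ) • x) (h1 : ‖x‖ = 1) : En ρ x = 2 * (2 * k + 1) * (1 - lam) := by
  rw [En_eq, hx]
  have : x - (lam : ℂ) • x = ((1 - lam : ℝ) : ℂ) • x := by
    push_cast
    module
  rw [this, inner_smul_right]
  have h2 : (inner ℂ x x).re = ‖x‖ ^ 2 := by
    have := inner_self_eq_norm_sq (𝕜 := ℂ) x
    simpa using this
  rw [Complex.re_ofReal_mul, h2, h1]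
  ring

/-- the smoothing estimate bounds the energy of eigenvectors near the top -/
theorem eig_bound (ρ : FreeGroup (Fin k) →* unitary (H →L[ℂ] H)) (x : H) (lam : ℝ)
    (hx : Mk ρ x = (lam : ℂ) • x) (h1 : ‖x‖ = 1) (K : ℕ) (C η : ℝ) (hC : 1 ≤ C)
    (hη : η ≤ 1 / 16) (hl : 2 * (2 * k + 1) * (1 - lam) ≤ 1 / (8 * C)) (hS : Smo ρ K C (2 * η) x) :
    2 * (2 * k + 1) * (1 - lam) ≤ 8 * η := by
  obtain ⟨ha, hb⟩ := hS
  have hE := En_eig ρ x lam hx h1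
  have hE0 := En_nonneg ρ x
  have hb' : ‖(Mk ρ ^ K) x - x‖ ^ 2 ≤ C * En ρ x + 2 * η * ‖x‖ ^ 2 := hb
  have ha' : En ρ ((Mk ρ ^ K) x) ≤ 2 * η * ‖x‖ ^ 2 := ha
  rw [Mk_pow_eig ρ x lam hx, En_smul, h1] at ha'
  rw [Mk_pow_eig ρ x lam hx, h1] at hb'
  have e1 : ((lam ^ K : ℝ) : ℂ) • x - x = ((lam ^ K - 1 : ℝ) : ℂ) • x := by
    push_cast
    module
  rw [e1, norm_smul, h1, Complex.norm_real, mul_one] at hb'
  rw [Complex.norm_real] at ha'
  rw [Real.norm_eq_abs, sq_abs] at ha' hb'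
  have h2 : C * En ρ x ≤ 1 / 8 := by
    rw [hE]
    calc C * (2 * (2 * k + 1) * (1 - lam)) ≤ C * (1 / (8 * C)) :=
          mul_le_mul_of_nonneg_left hl (by linarith)
      _ = 1 / 8 := by field_simp
  have h3 : (lam ^ K - 1) ^ 2 ≤ (1 / 2) ^ 2 := by nlinarith
  have h4 : 1 / 2 ≤ lam ^ K := by
    have := abs_le_of_sq_le_sq' h3 (by norm_num)
    linarith [this.1]
  have h5 : 1 / 4 ≤ (lam ^ K) ^ 2 := by nlinarith
  rw [hE] at ha' hE0
  nlinarith

end one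

theorem core {k : ℕ} {H : Type} [NormedAddCommGroup H] [InnerProductSpace ℂ H] [CompleteSpace H]
    [FiniteDimensional ℂ H] (ρ : FreeGroup (Fin k) →* unitary (H →L[ℂ] H)) (C : ℝ) (hC : 1 ≤ C) :
    ∃ V : Submodule ℂ H, (∀ v ∈ Vᗮ, 1 / (8 * C) * ‖v‖ ^ 2 ≤ En ρ v) ∧
      ∀ (ε : ℝ) (K : ℕ), 0 < ε → (∀ ξ : H, Smo ρ K C (2 * min (1 / 16) (ε / 8)) ξ) →
        ∀ v ∈ V, En ρ v ≤ ε * ‖v‖ ^ 2 := by
  classical
  set T : H →ₗ[ℂ] H := (Mk ρ : H →L[ℂ] H).toLinearMap with hTdef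
  have hT : T.IsSymmetric := fun x y => Mk_symm ρ x y
  set b := hT.eigenvectorBasis (n := Module.finrank ℂ H) rfl with hb
  set lam := hT.eigenvalues (n := Module.finrank ℂ H) rfl with hlam
  have hTb : ∀ i, Mk ρ (b i) = (lam i : ℂ) • b i := fun i =>
    hT.apply_eigenvectorBasis rfl i
  have hn : ∀ i, ‖b i‖ = 1 := fun i => b.norm_eq_one i
  have hk : (0 : ℝ) < 2 * k + 1 := by positivity
  -- energy in coordinates
  have hEn : ∀ v, En ρ v = ∑ i, 2 * (2 * k + 1) * (1 - lam i) * ‖inner ℂ (b i) v‖ ^ 2 := by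
    intro v
    rw [En_eq, ← b.sum_inner_mul_inner v (v - Mk ρ v), Complex.re_sum, Finset.mul_sum]
    refine Finset.sum_congr rfl fun i _ => ?_
    have e1 : inner ℂ (b i) (v - Mk ρ v) = ((1 - lam i : ℝ) : ℂ) * inner ℂ (b i) v := by
      rw [inner_sub_right, ← Mk_symm, hTb, inner_smul_left]
      simp
      ring
    rw [e1]
    have e2 : inner ℂ v (b i) * (((1 - lam i : ℝ) : ℂ) * inner ℂ (b i) v) =
        ((1 - lam i : ℝ) : ℂ) * (((‖inner ℂ (b i) v‖ ^ 2 : ℝ)) : ℂ) := by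
      rw [← inner_conj_symm v (b i)]
      push_cast
      rw [← Complex.conj_mul']
      ring
    rw [e2, ← Complex.ofReal_mul, Complex.ofReal_re]
    ring
  have hnm : ∀ v, ‖v‖ ^ 2 = ∑ i, ‖inner ℂ (b i) v‖ ^ 2 := fun v =>
    (b.sum_sq_norm_inner_right v).symm
  let S : Set (Fin (Module.finrank ℂ H)) := {i | 2 * (2 * k + 1) * (1 - lam i) ≤ 1 / (8 * C)}
  have hl1 : ∀ i, 0 ≤ 2 * (2 * (k : ℝ) + 1) * (1 - lam i) := by
    intro i
    rw [← En_eig ρ (b i) (lam i) (hTb i) (hn i)]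
    exact En_nonneg ρ _
  refine ⟨Submodule.span ℂ (b '' S), ?_, ?_⟩
  · intro v hv
    rw [hEn, hnm v, Finset.mul_sum]
    refine Finset.sum_le_sum fun i _ => ?_
    by_cases hi : i ∈ S
    · have : inner ℂ (b i) v = 0 :=
        (Submodule.mem_orthogonal _ _).1 hv (b i) (Submodule.subset_span ⟨i, hi, rfl⟩)
      rw [this]
      simp
    · have hi' : 1 / (8 * C) < 2 * (2 * k + 1) * (1 - lam i) := not_le.1 hi
      exact mul_le_mul_of_nonneg_right hi'.le (by positivity)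
  · intro ε K hε hS v hv
    have hz : ∀ i, i ∉ S → inner ℂ (b i) v = 0 := by
      intro i hi
      have hle : Submodule.span ℂ (b '' S) ≤ (Submodule.span ℂ {b i})ᗮ := by
        rw [Submodule.span_le]
        rintro _ ⟨j, hj, rfl⟩
        rw [SetLike.mem_coe, Submodule.mem_orthogonal_singleton_iff_inner_right]
        have hij : i ≠ j := fun h => hi (h ▸ hj)
        exact b.orthonormal.2 hij
      exact (Submodule.mem_orthogonal_singleton_iff_inner_right).1 (hle hv)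
    rw [hEn, hnm v, Finset.mul_sum]
    refine Finset.sum_le_sum fun i _ => ?_
    by_cases hi : i ∈ S
    · have h8 := eig_bound ρ (b i) (lam i) (hTb i) (hn i) K C (min (1 / 16) (ε / 8)) hC
        (min_le_left _ _) hi (hS _)
      have h9 : 8 * min (1 / 16) (ε / 8) ≤ ε := by
        have := min_le_right (1 / 16 : ℝ) (ε / 8)
        linarith
      exact mul_le_mul_of_nonneg_right (h8.trans h9) (by positivity)
    · rw [hz i hi]
      simp

theorem t_gap : Pool.Agent.N708.MX.S_GAP := by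
  intro K _ k γ hT hγ
  have hT' : HasT K := hT
  obtain ⟨C, hC, hB⟩ := Pool.Agent.W681.RC.main W440.RC.main K k γ hT' hγ
  have key : ∀ ε : ℝ, ∃ (δ : ℝ) (R : Finset (FreeGroup (Fin k))), 0 < ε →
      (0 < δ ∧ ∀ w ∈ R, γ w = 1) ∧ ∃ n : ℕ,
        ∀ (H : Type) [NormedAddCommGroup H] [InnerProductSpace ℂ H] [CompleteSpace H]
          (ρ : FreeGroup (Fin k) →* unitary (H →L[ℂ] H)) (ξ : H),
          (∀ w ∈ R, ‖(ρ w : H →L[ℂ] H) ξ - ξ‖ ≤ δ * ‖ξ‖) →
            Smo ρ n C (2 * min (1 / 16) (ε / 8)) ξ := by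
    intro ε
    by_cases hε : 0 < ε
    · have hη : 0 < min (1 / 16 : ℝ) (ε / 8) := lt_min (by norm_num) (by linarith)
      obtain ⟨n, hn⟩ := hB _ hη
      obtain ⟨δ, hδ, R, hR, h⟩ := Pool.Agent.W103.RC.main k γ.ker n C _ hη
        (fun H _ _ _ ρ hρ ξ => hn H ρ (fun w hw => hρ w (MonoidHom.mem_ker.2 hw)) ξ)
      exact ⟨δ, R, fun _ => ⟨⟨hδ, fun w hw => MonoidHom.mem_ker.1 (hR w hw)⟩, n,
        fun H _ _ _ ρ ξ hξ => h H ρ ξ hξ⟩⟩
    · exact ⟨0, ∅, fun h => absurd h hε⟩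
  choose δ R hδR using key
  refine ⟨1 / (8 * C), by positivity, δ, R, fun ε hε => (hδR ε hε).1, ?_⟩
  intro H _ _ _ _ ρ
  obtain ⟨V, hV1, hV2⟩ := core ρ C hC
  refine ⟨V, hV1, ?_⟩
  intro ε hε hw
  obtain ⟨-, n, hn⟩ := hδR ε hε
  refine hV2 ε n hε fun ξ => hn H ρ ξ fun w hwR => ?_
  calc ‖(ρ w : H →L[ℂ] H) ξ - ξ‖ = ‖((ρ w : H →L[ℂ] H) - 1) ξ‖ := by
        rw [ContinuousLinearMap.sub_apply, ContinuousLinearMap.one_apply]
    _ ≤ ‖(ρ w : H →L[ℂ] H) - 1‖ * ‖ξ‖ := ContinuousLinearMap.le_opNorm _ _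
    _ ≤ δ ε * ‖ξ‖ := mul_le_mul_of_nonneg_right (hw w hwR) (norm_nonneg _)

end Pool.Agent.N291.MX.GAP
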